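import Pool.Agent.Lib.MP_6e8030_nt.VMain3

/-!
# Ozaki's question for extensions of degree `p` over extensions of degree prime to `p`

For every prime `p` and every number field `F` there are a finite Galois extension `N/F`, an
element `s` of `Gal(Om/F(μ_p))` and a constant `C` such that the Galois group of the maximal
unramified pro-`p` extension of `k_∞` is not a free pro-`p` group for every cyclic extension
`k/k₁` of degree `p` of every extension `k₁/F` of degree prime to `p` for which there are more than
`C` primes `𝔮` of `F` of degree one with Frobenius element `s` in `Gal(N/F)` all whose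
ramification indices in `k` are divisible by `p`.
-/

namespace Pool.Agent.Results.MP_6e8030_nt.ChebotarevExtensions

open OzakiFree

theorem result (p : ℕ) (hp : p.Prime) (F : IntermediateField ℚ Om) [FiniteDimensional ℚ F] :
    ∃ (N : IntermediateField ℚ Om) (s : GQ) (C : ℕ), FiniteDimensional ℚ N ∧ F ≤ N ∧
      (∀ t, Fixes t F → ∀ x ∈ N, t x ∈ N) ∧ Fixes s F ∧ (∀ ζ : Om, ζ ^ p = 1 → s ζ = ζ) ∧
      ∀ k₁ k : IntermediateField ℚ Om, F ≤ k₁ → ¬ p ∣ IntermediateField.relfinrank F k₁ →
        CyclicExt p k₁ k → (C : ℕ∞) < (FrobDiv p F N k s).encard → ¬ FreeGal p (cycZp p k) :=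
  mainV hp F

end Pool.Agent.Results.MP_6e8030_nt.ChebotarevExtensions
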