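import Pool.Agent.Lib.MP_6e8030_nt.VMain5

/-!
# Ozaki's question for extensions of degree `p`, base field containing `μ_p`, explicit primes

Let `p` be a prime number and `F` a number field containing the `p`-th roots of unity (for
`p = 2`: any number field). There is a constant `C` such that the Galois group of the maximal
unramified pro-`p` extension of `k_∞` is not a free pro-`p` group for every cyclic extension
`k/k₁` of degree `p` of every extension `k₁/F` of degree prime to `p` for which there are more than
`C` prime ideals `𝔮` of `F` of degree one, `N𝔮 ≠ p`, `N𝔮 ≢ 1 mod p ^ 2`, all whose ramification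
indices in `k` are divisible by `p`.
-/

namespace Pool.Agent.Results.MP_6e8030_nt.KummerExtensions

open OzakiFree

theorem result (p : ℕ) (hp : p.Prime) (F : IntermediateField ℚ Om) [FiniteDimensional ℚ F]
    (hμ : ∀ x : Om, x ^ p = 1 → x ∈ F) :
    ∃ C : ℕ, ∀ k₁ k : IntermediateField ℚ Om, F ≤ k₁ → ¬ p ∣ IntermediateField.relfinrank F k₁ →
      CyclicExt p k₁ k → (C : ℕ∞) < (KumDiv p F k).encard → ¬ FreeGal p (cycZp p k) :=
  mainF2 hp F hμ

end Pool.Agent.Results.MP_6e8030_nt.KummerExtensions
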