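import Pool.Agent.Lib.MP_6e8030_nt.VMain6

/-!
# Ozaki's question: three prime numbers suffice

`p` is any prime number, `k₁` a number field containing the `p`-th roots of unity whose degree is
prime to `p` (for `p = 2`: any number field of odd degree) and `k/k₁` a cyclic extension of degree
`p` such that for three different prime numbers `l ≠ p` with `l ^ (p - 1) ≢ 1 mod p ^ 2` (for
`p = 2`: `l ≡ 3 mod 4`) all the ramification indices of `l` in `k` are divisible by `p`.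
Then the Galois group of the maximal unramified pro-`p` extension of the cyclotomic
`ℤ_p`-extension of `k` is not a free pro-`p` group.
-/

namespace Pool.Agent.Results.MP_6e8030_nt.ThreePrimes

open OzakiFree

theorem result (p : ℕ) (hp : p.Prime) (k₁ k : IntermediateField ℚ Om)
    (hμ : ∀ x : Om, x ^ p = 1 → x ∈ k₁) (hdeg : ¬ p ∣ Module.finrank ℚ k₁)
    (hk : CyclicExt p k₁ k) (l₁ l₂ l₃ : ℕ)
    (P₁ : l₁.Prime) (P₂ : l₂.Prime) (P₃ : l₃.Prime)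
    (n₁ : l₁ ≠ p) (n₂ : l₂ ≠ p) (n₃ : l₃ ≠ p)
    (n₁₂ : l₁ ≠ l₂) (n₁₃ : l₁ ≠ l₃) (n₂₃ : l₂ ≠ l₃)
    (v₁ : RamDivZ p k l₁) (v₂ : RamDivZ p k l₂) (v₃ : RamDivZ p k l₃)
    (w₁ : ¬ (l₁ : ℤ) ^ (p - 1) ≡ 1 [ZMOD (p : ℤ) ^ 2])
    (w₂ : ¬ (l₂ : ℤ) ^ (p - 1) ≡ 1 [ZMOD (p : ℤ) ^ 2])
    (w₃ : ¬ (l₃ : ℤ) ^ (p - 1) ≡ 1 [ZMOD (p : ℤ) ^ 2]) :
    ¬ FreeGal p (cycZp p k) :=
  main_three hp k₁ k hμ hdeg hk P₁ P₂ P₃ n₁ n₂ n₃ n₁₂ n₁₃ n₂₃ v₁ v₂ v₃ (by simpa using w₁)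
    (by simpa using w₂) (by simpa using w₃)

end Pool.Agent.Results.MP_6e8030_nt.ThreePrimes
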