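import Pool.Agent.Lib.MP_6e8030_nt.W.Final
import Pool.Agent.Lib.MP_6e8030_nt.U2a

/-!
# Ozaki's question for `p = 2` and the totally imaginary quadratic extensions of the layers of `ℚ_∞`

`ℚ_∞ = cycZp 2 ⊥` is the cyclotomic `ℤ_2`-extension of `ℚ`. Let `k` be a totally imaginary number
field with `[k : k ∩ ℚ_∞] = 2`, for example any imaginary quadratic field. If the Galois group of
the maximal unramified pro-`2` extension of the cyclotomic `ℤ_2`-extension of `k` is a free
pro-`2` group, then it is abelian.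
-/

open IntermediateField

namespace Pool.Agent.Results.MP_6e8030_nt.TotallyImaginary

open OzakiFree

theorem result (k : IntermediateField ℚ Om) [FiniteDimensional ℚ k]
    (h : relfinrank (k ⊓ cycZp 2 ⊥) k = 2) (him : ∀ c, IsConj c → ¬ Fixes c k)
    (hfree : FreeGal 2 (cycZp 2 k)) :
    ∀ x y : GalGroup (cycZp 2 k) (maxUnram 2 (cycZp 2 k)), x * y = y * x :=
  theoremW k h him hfree

/-- The special case of the imaginary quadratic fields. -/
theorem imaginary_quadratic (k : IntermediateField ℚ Om) (h : Module.finrank ℚ k = 2)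
    (him : ∀ c, IsConj c → ¬ Fixes c k) (hfree : FreeGal 2 (cycZp 2 k)) :
    ∀ x y : GalGroup (cycZp 2 k) (maxUnram 2 (cycZp 2 k)), x * y = y * x := by
  have : FiniteDimensional ℚ k := FiniteDimensional.of_finrank_pos (by omega)
  have hne : ¬ k ≤ k ⊓ cycZp 2 ⊥ := by
    intro hle
    obtain ⟨φ⟩ : Nonempty (Om →+* ℂ) := ⟨(IsAlgClosed.lift : Om →ₐ[ℚ] ℂ).toRingHom⟩
    obtain ⟨c, hc⟩ := U2a_exists_conj φ
    refine him c ⟨φ, hc⟩ fun x hx => ?_
    exact ((hle hx).2).2 ⟨c, Subgroup.subset_closure ⟨fun y hy => by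
        obtain ⟨q, rfl⟩ := IntermediateField.mem_bot.mp hy
        exact c.commutes q, 2, two_pos, fun ζ _ => by
          rw [pow_two, Fin_conj_sq φ c hc]; rfl⟩⟩
  have h1 := IntermediateField.finrank_bot_mul_relfinrank (inf_le_left : k ⊓ cycZp 2 ⊥ ≤ k)
  rw [h] at h1
  refine result k ?_ him hfree
  rcases (Nat.dvd_prime Nat.prime_two).mp (Dvd.intro_left _ h1) with h2 | h2
  · exact absurd (IntermediateField.relfinrank_eq_one_iff.mp h2) hne
  · exact h2

end Pool.Agent.Results.MP_6e8030_nt.TotallyImaginary
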